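import Pool.Agent.Lib.MP_6383d0_co.H51.Sandwich

/-!
The chromatic number of (P_4 + l P_1, K_k)-free graphs: logarithmic improvement of the
upper bound, and equivalence with a Ramsey-type function up to a constant factor.
M and F are defined in Pool/Agent/Lib/MP_6383d0_co/H51/Defs.lean.
-/

namespace Pool.Agent.Results.MP_6383d0_co.LogBound

open Pool.Agent.Lib.MP_6383d0_co

/-- For k ≥ 2: M k l is the maximum of a nonempty bounded set;
M_k(l) ≤ C_k (l / log l)^(k-2) for all l ≥ 2;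
F_k(l+1) ≤ M_k(l) and M_(k+1)(l) ≤ 4 M_k(l) + F_(k+1)(l-1) for l ≥ 1;
F_3(l+1) ≤ M_3(l) ≤ F_3(l-1) + 4 for l ≥ 1;
M_k(l) ≤ ((4^(k-1) - 1)/3) F_k(l-1) for l ≥ 2. -/
theorem result :
    (∀ k l : ℕ, 2 ≤ k → IsGreatest (chromSet k l) (M k l) ∧ IsGreatest (alphaSet k l) (F k l)) ∧
    (∀ k : ℕ, 2 ≤ k → ∃ C : ℝ, ∀ l : ℕ, 2 ≤ l →
      (M k l : ℝ) ≤ C * ((l : ℝ) / Real.log l) ^ (k - 2)) ∧
    (∀ k l : ℕ, 2 ≤ k → F k (l + 1) ≤ M k l) ∧
    (∀ k l : ℕ, 2 ≤ k → 1 ≤ l → M (k + 1) l ≤ 4 * M k l + F (k + 1) (l - 1)) ∧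
    (∀ l : ℕ, 1 ≤ l → F 3 (l + 1) ≤ M 3 l ∧ M 3 l ≤ F 3 (l - 1) + 4) ∧
    (∀ k l : ℕ, 2 ≤ k → 2 ≤ l → 3 * M k l ≤ (4 ^ (k - 1) - 1) * F k (l - 1)) := by
  refine ⟨?_, fun k hk => M_log k hk, fun k l hk => F_le_M k l hk,
    fun k l hk hl => M_le k l hk hl, fun l hl => ⟨F_le_M 3 l (by norm_num), ?_⟩,
    fun k l hk hl => M_le_F k l hk hl⟩
  swap
  · have h1 : M 3 l ≤ 4 * M 2 l + F 3 (l - 1) := M_le 2 l le_rfl hl
    have h2 := M_two l
    omega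
  intro k l hk
  have hne : (alphaSet k l).Nonempty := by
    refine ⟨0, 0, ⊥, ?_, ?_, ?_⟩
    · exact SimpleGraph.cliqueFree_of_card_lt (by simp; omega)
    · rw [aLt_univ_iff]
      intro T _ _
      have : T.card ≤ Fintype.card (Fin 0) := Finset.card_le_univ T
      simp only [Fintype.card_fin] at this
      omega
    · have h0 : (⊥ : SimpleGraph (Fin 0)).Colorable 0 := SimpleGraph.Colorable.of_isEmpty 0
      have := h0.chromaticNumber_le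
      exact le_antisymm this (by simp)
  exact ⟨⟨Nat.sSup_mem ⟨0, complete_mem 0 (by omega)⟩ (bddAbove_chromSet k l hk),
      fun c hc => le_csSup (bddAbove_chromSet k l hk) hc⟩,
    ⟨Nat.sSup_mem hne (bddAbove_alphaSet k l hk),
      fun c hc => le_csSup (bddAbove_alphaSet k l hk) hc⟩⟩

end Pool.Agent.Results.MP_6383d0_co.LogBound
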