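import Pool.Agent.Lib.MP_6383d0_co.Kim.H64.LOW
import Pool.Agent.Lib.MP_6383d0_co.Kim.H64.Thm
import Pool.Agent.Lib.MP_6383d0_co.Kim.H64.RAMK

/-!
Lower bounds for the chromatic number of (P_4 + l P_1, K_k)-free graphs, for all k and l.
M is defined in Pool/Agent/Lib/MP_6383d0_co/H51/Defs.lean.
-/

namespace Pool.Agent.Results.MP_6383d0_co.LowerBounds

open Pool.Agent.Lib.MP_6383d0_co Pool.Agent.Lib.MP_6383d0_co.Kim.H64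

/-- For fixed k ≥ 3: M_k(l) ≥ c l^((k-1)/2) / (log l)^((k+1)/2) for all l ≥ 2.
For fixed l ≥ 1: M_k(l) ≥ c (k / log k)^((l+3)/2) for all k ≥ 3.
For l = 1: M_k(1) ≥ c k² / log k for all k ≥ 3. -/
theorem result :
    (∀ k : ℕ, 3 ≤ k → ∃ c : ℝ, 0 < c ∧ ∀ l : ℕ, 2 ≤ l →
      c * ((l : ℝ) ^ (((k : ℝ) - 1) / 2) / Real.log l ^ (((k : ℝ) + 1) / 2)) ≤ M k l) ∧
    (∀ l : ℕ, 1 ≤ l → ∃ c : ℝ, 0 < c ∧ ∀ k : ℕ, 3 ≤ k →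
      c * ((k : ℝ) / Real.log k) ^ (((l : ℝ) + 3) / 2) ≤ M k l) ∧
    (∃ c : ℝ, 0 < c ∧ ∀ k : ℕ, 3 ≤ k → c * ((k : ℝ) ^ 2 / Real.log k) ≤ M k 1) :=
  ⟨(lowk ramk).1, (lowk ramk).2, (low ram_thm).2⟩

end Pool.Agent.Results.MP_6383d0_co.LowerBounds
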