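import Pool.Agent.Lib.MP_6383d0_co.H51.Sandwich
import Pool.Agent.Lib.MP_6383d0_co.Kim.H64.LOW
import Pool.Agent.Lib.MP_6383d0_co.Kim.H64.Thm

/-!
The order of magnitude of the chromatic number of (P_4 + l P_1)-free triangle-free graphs.
M and chromSet are defined in Pool/Agent/Lib/MP_6383d0_co/H51/Defs.lean.
-/

namespace Pool.Agent.Results.MP_6383d0_co.OrderThree

open Pool.Agent.Lib.MP_6383d0_co Pool.Agent.Lib.MP_6383d0_co.Kim.H64

/-- M_3(l) = Θ(l / log l); M_3(l) is the maximum of the set chromSet 3 l. -/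
theorem result : ∃ c C : ℝ, 0 < c ∧ 0 < C ∧ ∀ l : ℕ, 2 ≤ l →
    IsGreatest (chromSet 3 l) (M 3 l) ∧
    c * ((l : ℝ) / Real.log l) ≤ M 3 l ∧ (M 3 l : ℝ) ≤ C * ((l : ℝ) / Real.log l) := by
  obtain ⟨c, hc, h1⟩ := (low ram_thm).1
  obtain ⟨C, h2⟩ := M_log 3 (by norm_num)
  have hg : ∀ l : ℕ, 2 ≤ l → 0 < (l : ℝ) / Real.log l := by
    intro l hl
    have h4 : 0 < Real.log (l : ℝ) := Real.log_pos (by exact_mod_cast hl)
    have h5 : (0 : ℝ) < l := by
      have : 0 < l := by omega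
      exact_mod_cast this
    positivity
  have h3 : ∀ l : ℕ, 2 ≤ l → (M 3 l : ℝ) ≤ C * ((l : ℝ) / Real.log l) := by
    intro l hl
    have h3 := h2 l hl
    norm_num at h3
    exact h3
  have hC : 0 < C := by
    have h4 := (h1 2 le_rfl).trans (h3 2 le_rfl)
    have h5 := hg 2 le_rfl
    have h6 : 0 < C * (((2 : ℕ) : ℝ) / Real.log ((2 : ℕ) : ℝ)) :=
      lt_of_lt_of_le (mul_pos hc h5) h4
    exact pos_of_mul_pos_left h6 h5.le
  exact ⟨c, C, hc, hC, fun l hl => ⟨⟨Nat.sSup_mem ⟨0, complete_mem 0 (by norm_num)⟩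
    (bddAbove_chromSet 3 l (by norm_num)),
      fun c hc => le_csSup (bddAbove_chromSet 3 l (by norm_num)) hc⟩, h1 l hl, h3 l hl⟩⟩

end Pool.Agent.Results.MP_6383d0_co.OrderThree
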