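import Pool.Agent.Lib.MP_6383d0_co.H51.SmallBound

/-!
The chromatic number of (P_4 + l P_1, K_k)-free graphs: the values M_3(2) = 3 and M_3(3) = 4
and an explicit upper bound for all k and l.
M is defined in Pool/Agent/Lib/MP_6383d0_co/H51/Defs.lean.
-/

namespace Pool.Agent.Results.MP_6383d0_co.SmallValues

open Pool.Agent.Lib.MP_6383d0_co

/-- M_3(2) = 3, M_3(3) = 4, M_k(l) ≤ binom(k+l-1, k-2) for k ≥ 2, and
M_k(l) ≤ binom(k+l-1, k-2) - binom(k+l-5, k-3) for k ≥ 3 and l ≥ 2. -/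
theorem result :
    M 3 2 = 3 ∧ M 3 3 = 4 ∧
    (∀ k l : ℕ, 2 ≤ k → M k l ≤ (k + l - 1).choose (k - 2)) ∧
    (∀ k l : ℕ, 3 ≤ k → 2 ≤ l →
      M k l ≤ (k + l - 1).choose (k - 2) - (k + l - 5).choose (k - 3)) := by
  refine ⟨M_three_two, M_three_three, fun k l hk => M_le_binom k l hk, fun k l hk hl => ?_⟩
  have := M_le_improved k l hk hl
  omega

end Pool.Agent.Results.MP_6383d0_co.SmallValues
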